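import Pool.Agent.helper42.CQ.SpecC

/-!
# cq:REL: the relation between the vertices
-/

set_option autoImplicit false

namespace Pool.Agent.helper42.CQ

open Finset Pool.Agent.helper24.CG

theorem REL_tv_symm {N : ℕ} (K : Finset (Fin N)) (H : List (ES N)) (z h : Fin N) :
    tv K H z h = tv K H h z := by
  classical
  unfold tv
  congr 1
  exact filter_congr fun E _ => and_comm

theorem REL_tv_mono {N : ℕ} (K : Finset (Fin N)) (H₂ H₁ : List (ES N)) (z h : Fin N) :
    tv K H₁ z h ≤ tv K (H₂ ++ H₁) z h := by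
  classical
  unfold tv
  apply card_le_card
  intro E hE
  rw [mem_filter] at hE ⊢
  refine ⟨?_, hE.2⟩
  rw [List.mem_toFinset] at hE ⊢
  exact List.mem_append_right _ hE.1

theorem REL_rl_symm {N : ℕ} (M : ℕ) (K : Finset (Fin N)) (H : List (ES N)) (z h : Fin N)
    (hr : rl M K H z h) : rl M K H h z :=
  ⟨hr.2.1, hr.1, by rw [REL_tv_symm]; exact hr.2.2⟩

theorem REL_rl_mono {N : ℕ} (M : ℕ) (K : Finset (Fin N)) (H₂ H₁ : List (ES N)) (z h : Fin N)
    (hr : rl M K H₁ z h) : rl M K (H₂ ++ H₁) z h :=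
  ⟨hr.1, hr.2.1, hr.2.2.trans (REL_tv_mono K H₂ H₁ z h)⟩

theorem REL_mem_cmp {N : ℕ} (M : ℕ) (K : Finset (Fin N)) (H : List (ES N)) (z u : Fin N) :
    u ∈ cmp M K H z ↔ u ∈ K ∧ Relation.ReflTransGen (rl M K H) z u := by
  classical
  unfold cmp
  exact mem_filter

theorem REL_rtg_symm {N : ℕ} (M : ℕ) (K : Finset (Fin N)) (H : List (ES N)) (z u : Fin N)
    (h : Relation.ReflTransGen (rl M K H) z u) : Relation.ReflTransGen (rl M K H) u z := by
  induction h with
  | refl => exact Relation.ReflTransGen.refl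
  | tail _ hbc ih => exact Relation.ReflTransGen.head (REL_rl_symm M K H _ _ hbc) ih

theorem REL_mem_Gs {N : ℕ} (M : ℕ) (K : Finset (Fin N)) (s : ℕ) (H : List (ES N)) (z : Fin N) :
    z ∈ Gs M K s H ↔ z ∈ K ∧ ((∃ u ∈ cmp M K H z, WF M K H u) ∨ s ≤ (cmp M K H z).card) := by
  classical
  unfold Gs
  exact mem_filter

theorem REL_cmp_eq {N : ℕ} (M : ℕ) (K : Finset (Fin N)) (H : List (ES N)) (z u : Fin N)
    (h : u ∈ cmp M K H z) : cmp M K H u = cmp M K H z := by
  rw [REL_mem_cmp] at h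
  ext w
  rw [REL_mem_cmp, REL_mem_cmp]
  constructor
  · rintro ⟨h1, h2⟩
    exact ⟨h1, h.2.trans h2⟩
  · rintro ⟨h1, h2⟩
    exact ⟨h1, (REL_rtg_symm M K H z u h.2).trans h2⟩

theorem REL_cmp_mono {N : ℕ} (M : ℕ) (K : Finset (Fin N)) (H₂ H₁ : List (ES N)) (z : Fin N) :
    cmp M K H₁ z ⊆ cmp M K (H₂ ++ H₁) z := by
  intro u hu
  rw [REL_mem_cmp] at hu ⊢
  refine ⟨hu.1, Relation.ReflTransGen.mono (r := rl M K H₁) ?_ z u hu.2⟩
  intro a b h
  exact REL_rl_mono M K H₂ H₁ a b h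

theorem REL_WF_mono {N : ℕ} (M : ℕ) (K : Finset (Fin N)) (H₂ H₁ : List (ES N)) (z : Fin N)
    (h : WF M K H₁ z) : WF M K (H₂ ++ H₁) z := by
  obtain ⟨D, h1, h2, h3⟩ := h
  refine ⟨D, fun d hd => ?_, h2, h3⟩
  have h4 := h1 hd
  unfold part at h4 ⊢
  rw [mem_filter] at h4 ⊢
  obtain ⟨h5, h6, E, h7, h8⟩ := h4
  exact ⟨h5, h6, E, List.mem_append_right _ h7, h8⟩

theorem REL : REL_stmt := by
  classical
  intro N M K hM
  refine ⟨REL_rl_symm M K, ?_, ?_, ?_, ?_, REL_cmp_mono M K, REL_WF_mono M K, ?_, ?_, ?_, ?_, ?_⟩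
  · intro H z hz
    rw [REL_mem_cmp]
    exact ⟨hz, Relation.ReflTransGen.refl⟩
  · intro H z
    exact filter_subset _ _
  · intro H z u _ h
    exact REL_cmp_eq M K H z u h
  · intro H z u _ hu h
    rw [disjoint_left]
    intro w h1 h2
    rw [REL_mem_cmp] at h1 h2
    apply h
    rw [REL_mem_cmp]
    exact ⟨hu, h2.2.trans (REL_rtg_symm M K H u w h1.2)⟩
  · intro s H₂ H₁ z hz
    rw [REL_mem_Gs] at hz ⊢
    refine ⟨hz.1, ?_⟩
    rcases hz.2 with ⟨u, hu, hw⟩ | h
    · exact Or.inl ⟨u, REL_cmp_mono M K H₂ H₁ z hu, REL_WF_mono M K H₂ H₁ u hw⟩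
    · exact Or.inr (h.trans (card_le_card (REL_cmp_mono M K H₂ H₁ z)))
  · intro s H
    exact filter_subset _ _
  · intro s s' H hs z hz
    rw [REL_mem_Gs] at hz ⊢
    refine ⟨hz.1, ?_⟩
    rcases hz.2 with h | h
    · exact Or.inl h
    · exact Or.inr (hs.trans h)
  · intro s H z hz w hw
    rw [REL_mem_Gs] at hz ⊢
    have h1 := REL_cmp_eq M K H z w hw
    rw [h1]
    exact ⟨((REL_mem_cmp M K H z w).1 hw).1, hz.2⟩
  · intro s hs
    rw [eq_empty_iff_forall_notMem]
    intro z hz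
    rw [REL_mem_Gs] at hz
    rcases hz.2 with ⟨u, hu, D, h1, h2, h3⟩ | h
    · have h4 : part K ([] : List (ES N)) u = ∅ := by
        unfold part
        rw [filter_eq_empty_iff]
        rintro e _ ⟨_, E, hE, _⟩
        exact absurd hE List.not_mem_nil
      rw [h4] at h1
      have h5 : D = ∅ := subset_empty.1 h1
      rw [h5, card_empty] at h2
      omega
    · have h4 : cmp M K ([] : List (ES N)) z ⊆ {z} := by
        intro w hw
        rw [REL_mem_cmp] at hw
        rw [mem_singleton]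
        rcases Relation.ReflTransGen.cases_head hw.2 with h5 | ⟨c, h5, -⟩
        · exact h5.symm
        · exfalso
          have h6 := h5.2.2
          have h7 : tv K ([] : List (ES N)) z c = 0 := by
            unfold tv
            simp
          omega
      have h5 := card_le_card h4
      rw [card_singleton] at h5
      omega

end Pool.Agent.helper42.CQ
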